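import Pool.Agent.Helper62.AC.Main
import Pool.Agent.Helper39.ACA
import Pool.Agent.Helper39.ACB
import Pool.Agent.Helper38.ACE
import Pool.Agent.Helper38.ACF
import Pool.Agent.Helper17.ACW
import Pool.Agent.Helper45.ACD1
import Pool.Agent.Helper98.ACG
import Pool.Agent.Helper33.ACI
import Pool.Agent.Helper40.ACJ

/-!
The Borel complexity of the set `AC_6` of graphs in the cube `I^N` which are 6-arc connected but
not 7-arc connected: it is hard for the class of intersections of a `Π₃` and a `Σ₃` set (and it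
is known to belong to this class), so it is not `Π₃`.
-/

namespace Pool.Agent.Results.MP_917a41_gt.SixArcConnected

open Pool.Agent.Helper62.AC

/-- For every `N ≥ 2` the set `AC_6 ⊆ C(I^N)` is `D₂(Σ₃)`-hard; in particular it is not `Π₃`. -/
theorem result : ∀ N : ℕ, 2 ≤ N → D2Sigma3Hard (ACset N 6) ∧ ¬ IsPi3 (ACset N 6) := by
  intro N hN
  have h : D2Sigma3Hard (ACset N 6) :=
    hard Pool.Agent.Helper39.ACA.stmtA Pool.Agent.Helper45.ACD1.stmtD1
      Pool.Agent.Helper38.ACE.stmtE Pool.Agent.Helper38.ACF.stmtF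
      Pool.Agent.Helper98.ACG.stmtG2 Pool.Agent.Helper33.ACI.stmtI1
      Pool.Agent.Helper33.ACI.stmtI2 Pool.Agent.Helper40.ACJ.stmtJ
      (Pool.Agent.Helper17.ACW.stmtW Pool.Agent.Helper98.ACG.stmtG1) hN
  exact ⟨h, not_isPi3_of_hard Pool.Agent.Helper39.ACB.stmtB h⟩

end Pool.Agent.Results.MP_917a41_gt.SixArcConnected
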